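import Mathlib
import Pool.Prelude.Def_F_72ad9e24
import Pool.Agent.Helper58.LT.SumUp

/-!
The number of composite `n ≤ x` with `n ≡ a(n) (mod φ(n))` is at most
`√x exp (- (log x)^(1/61))` for all large `x`.
-/

namespace Pool.Agent.Results.MP_b50d59_nt.CountSubexp

open Pool.Agent.Helper6.Lehmer Pool.Agent.Helper6.LehmerCount Pool.Agent.Helper58.LT

/-- For all sufficiently large `x` the number of composite `n` with `4 < n ≤ x` and
`n ≡ a(n) (mod φ(n))`, where `a(n)` is the largest exponent in the prime factorisation of `n`, is at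
most `√x · exp (- (log x)^(1/61))`. -/
theorem result : ∃ x₀ : ℕ, ∀ x : ℕ, x₀ ≤ x →
    (((Finset.Icc 5 x).filter
      (fun n : ℕ => ¬ n.Prime ∧ n.totient ∣ n - Nca8c8b9b.a n)).card : ℝ) ≤
      Real.sqrt x * Real.exp (-(Real.log x ^ ((1 : ℝ) / 61))) := by
  classical
  obtain ⟨X₀, hX⟩ := NL_bound_exp
  refine ⟨X₀, fun x hx => le_trans ?_ (hX x hx)⟩
  have h1 : (Finset.Icc 5 x).filter
      (fun n : ℕ => ¬ n.Prime ∧ n.totient ∣ n - Nca8c8b9b.a n) ⊆
      (Finset.Icc 1 x).filter (fun n => IsLehmer n) := by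
    intro n hn
    rw [Finset.mem_filter, Finset.mem_Icc] at hn
    rw [Finset.mem_filter, Finset.mem_Icc]
    exact ⟨⟨by omega, hn.1.2⟩, isLehmer_of_dvd (by omega) hn.2.1 hn.2.2⟩
  have h2 := Finset.card_le_card h1
  unfold NL
  exact_mod_cast h2

end Pool.Agent.Results.MP_b50d59_nt.CountSubexp
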