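import Mathlib
import Pool.Prelude.Def_F_72ad9e24
import Pool.Agent.Helper6.LehmerCharFour

/-!
The prime factors of `n - 1` for the solutions of `n ≡ a(n) (mod φ(n))`.
-/

namespace Pool.Agent.Results.MP_b50d59_nt.PredecessorPrimes

open Pool.Agent.Helper6.Lehmer Pool.Agent.Helper6.LehmerChar

/-- Let `n > 4` be composite with `n ≡ a(n) (mod φ(n))`, where `a(n)` is the largest exponent in
the prime factorisation of `n`. Then `n - 1` has a prime factor `q ≥ 37` that exceeds at least
three other prime factors of `n - 1`: so `n - 1` has at least four distinct prime factors, the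
largest of which is at least `37`. -/
theorem result (n : ℕ) (hn : 4 < n) (hc : ¬ n.Prime) (hd : n.totient ∣ n - Nca8c8b9b.a n) :
    ∃ q ∈ (n - 1).primeFactors, 37 ≤ q ∧ 3 ≤ ((n - 1).primeFactors.filter (fun r => r < q)).card := by
  have hL : IsLehmer n := isLehmer_of_dvd hn hc hd
  obtain ⟨q0, hq0, h37, hd0⟩ := exists_prime_ge hL
  have h4 := four_le_card hL
  have hmem : q0 ∈ (n - 1).primeFactors := Nat.mem_primeFactors.mpr ⟨hq0, hd0, by omega⟩
  have hne : (n - 1).primeFactors.Nonempty := ⟨q0, hmem⟩
  refine ⟨(n - 1).primeFactors.max' hne, Finset.max'_mem _ _,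
    h37.trans (Finset.le_max' _ _ hmem), ?_⟩
  have h5 : (n - 1).primeFactors.filter (fun r => r < (n - 1).primeFactors.max' hne) =
      (n - 1).primeFactors.erase ((n - 1).primeFactors.max' hne) := by
    ext r
    rw [Finset.mem_filter, Finset.mem_erase]
    constructor
    · rintro ⟨h6, h7⟩
      exact ⟨h7.ne, h6⟩
    · rintro ⟨h6, h7⟩
      exact ⟨h7, lt_of_le_of_ne (Finset.le_max' _ _ h7) h6⟩
  rw [h5, Finset.card_erase_of_mem (Finset.max'_mem _ _)]
  omega

end Pool.Agent.Results.MP_b50d59_nt.PredecessorPrimes
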