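import Mathlib
import Pool.Prelude.Def_F_72ad9e24
import Pool.Agent.Helper6.LehmerMainTwo

/-!
A structural restriction on the solutions of `n ≡ a(n) (mod φ(n))`: no prime power can make up
almost all of `n - 1`.
-/

namespace Pool.Agent.Results.MP_b50d59_nt.PrimePowerPartMin

open Pool.Agent.Helper6.Lehmer

/-- Let `n > 4` be composite with `n ≡ a(n) (mod φ(n))`, where `a(n)` is the largest exponent in
the prime factorisation of `n`. If `q` is a prime and `n - 1 = q ^ e * h`, then
`log n ≤ 9 (log h + 1) min (log h + 1, ω(n))`, where `ω(n)` is the number of prime factors of `n`. -/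
theorem result (n : ℕ) (hn : 4 < n) (hc : ¬ n.Prime) (hd : n.totient ∣ n - Nca8c8b9b.a n)
    (q e h : ℕ) (hq : q.Prime) (hfac : n - 1 = q ^ e * h) :
    Real.log n ≤ 9 * (Real.log h + 1) * min (Real.log h + 1) (n.primeFactors.card : ℝ) := by
  have hL : IsLehmer n := isLehmer_of_dvd hn hc hd
  have hM0 : n - 1 ≠ 0 := by omega
  have h1 := main_bound hL hq
  have h1' := main_bound2 hL hq
  have h2 : ordCompl[q] (n - 1) ∣ h := by
    rw [hfac, Nat.ordCompl_mul, Nat.ordCompl_self_pow hq, one_mul]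
    exact Nat.ordCompl_dvd h q
  have hh0 : 0 < h := by
    rcases Nat.eq_zero_or_pos h with h0 | h0
    · rw [h0, mul_zero] at hfac
      exact absurd hfac hM0
    · exact h0
  have h3 : ordCompl[q] (n - 1) ≤ h := Nat.le_of_dvd hh0 h2
  have h4 : 0 < ordCompl[q] (n - 1) := Nat.ordCompl_pos q hM0
  have h5 : Real.log ((ordCompl[q] (n - 1) : ℕ) : ℝ) ≤ Real.log h := by
    apply Real.log_le_log
    · exact_mod_cast h4
    · exact_mod_cast h3
  have h6 : 0 ≤ Real.log ((ordCompl[q] (n - 1) : ℕ) : ℝ) := by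
    apply Real.log_nonneg
    exact_mod_cast h4
  rcases min_choice (Real.log h + 1) (n.primeFactors.card : ℝ) with hmin | hmin
  · rw [hmin]
    refine h1.trans ?_
    have h7 : (Real.log ((ordCompl[q] (n - 1) : ℕ) : ℝ) + 1) ^ 2 ≤ (Real.log h + 1) ^ 2 := by
      apply pow_le_pow_left₀ (by linarith)
      linarith
    calc 9 * (Real.log ((ordCompl[q] (n - 1) : ℕ) : ℝ) + 1) ^ 2 ≤ 9 * (Real.log h + 1) ^ 2 := by
          linarith
      _ = 9 * (Real.log h + 1) * (Real.log h + 1) := by ring
  · rw [hmin]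
    refine h1'.trans ?_
    apply mul_le_mul_of_nonneg_right _ (Nat.cast_nonneg _)
    linarith

end Pool.Agent.Results.MP_b50d59_nt.PrimePowerPartMin
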