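import Mathlib
import Pool.Prelude.Def_F_72ad9e24
import Pool.Agent.Helper6.SD.Fin

/-!
For all but at most `x ^ (1/2 - δ)` of the composite `n ≤ x` with `n ≡ a(n) (mod φ(n))`, every divisor
`m ≥ n ^ ε` of `n (n - 1)` has many prime factors that are not small, and those `m` that divide `n` and are at
most `n ^ ((1 + ε) / 2)` avoid a given sparse set.
-/

namespace Pool.Agent.Results.MP_b50d59_nt.StructurePowerSaving

open Pool.Agent.Helper6.Lehmer

open scoped Classical in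
/-- For every `ε > 0` there is `δ > 0`, and for every `z₀` an `x₀`, such that for every set `T` with at most
`z ^ (1 - ε)` elements in `[1, z]` for all `z ≥ z₀`, and all `x ≥ x₀`, all but at most `x ^ (1/2 - δ)` of the
composite `n` with `4 < n ≤ x` and `n ≡ a(n) (mod φ(n))` are such that every divisor `m ≥ n ^ ε` of
`n (n - 1)` has at least `1/ε` distinct prime factors `> (log log n) ^ (1/ε)` and, if `m` divides `n` and
`m ≤ n ^ ((1 + ε) / 2)`, is not in `T`. -/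
theorem result : ∀ ε : ℝ, 0 < ε → ∃ δ : ℝ, 0 < δ ∧ ∀ z₀ : ℕ, ∃ x₀ : ℕ, ∀ T : Set ℕ,
    (∀ z : ℕ, z₀ ≤ z →
      (((Finset.Icc 1 z).filter (fun t : ℕ => t ∈ T)).card : ℝ) ≤ (z : ℝ) ^ (1 - ε)) →
    ∀ x : ℕ, x₀ ≤ x →
    (((Finset.Icc 5 x).filter (fun n : ℕ => ¬ n.Prime ∧ n.totient ∣ n - Nca8c8b9b.a n ∧
        ¬ (∀ m : ℕ, m ∣ n * (n - 1) → (n : ℝ) ^ ε ≤ m →
          1 / ε ≤ ((m.primeFactors.filter
            (fun q : ℕ => Real.log (Real.log n) ^ (1 / ε) < q)).card : ℝ) ∧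
          (m ∣ n → (m : ℝ) ≤ (n : ℝ) ^ ((1 + ε) / 2) → m ∉ T)))).card : ℝ) ≤
      (x : ℝ) ^ ((1 : ℝ) / 2 - δ) := by
  intro ε hε
  obtain ⟨δ, hδ, h⟩ := Pool.Agent.Helper6.SD.final_main ε hε
  refine ⟨δ, hδ, fun z₀ => ?_⟩
  obtain ⟨x₀, h₀⟩ := h z₀
  refine ⟨x₀, fun T hT x hx => ?_⟩
  refine h₀ T ?_ x hx _ ?_
  · intro z hz U hU
    refine le_trans ?_ (hT z hz)
    have h1 : U ⊆ (Finset.Icc 1 z).filter (fun t : ℕ => t ∈ T) := by
      intro t ht
      obtain ⟨h1, h2, h3⟩ := hU t ht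
      exact Finset.mem_filter.mpr ⟨Finset.mem_Icc.mpr ⟨h2, h3⟩, h1⟩
    exact_mod_cast Finset.card_le_card h1
  · intro n hn
    rw [Finset.mem_filter, Finset.mem_Icc] at hn
    obtain ⟨⟨h5, hnx⟩, hp, hdv, hbad⟩ := hn
    refine ⟨isLehmer_of_dvd (by omega) hp hdv, h5, hnx, ?_⟩
    intro hgood
    apply hbad
    convert hgood

end Pool.Agent.Results.MP_b50d59_nt.StructurePowerSaving
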